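import Pool.Agent.H556R2.Complete

/-!
# The Borel complexity of: `P = NP ∩ coNP`
-/

set_option autoImplicit false

namespace Pool.Agent.H72.Moved.PEqNpc

open H556R2

/-- The set of oracles relative to which `P = NP ∩ coNP` is `Π⁰₃`-complete. -/
theorem result : Pi03Complete {A : Oracle | ClassP A = ClassNP A ∩ ClassCoNP A} :=
  P_eq_npc_complete

end Pool.Agent.H72.Moved.PEqNpc
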